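import Pool.Agent.H73.CBE.Stmts

/-!
# Board cbe, row ADR: the derivative of the square of the cosine
-/

set_option autoImplicit false

open Set Filter Topology

namespace Pool.CBE

theorem adr_inner {n : ℕ} (e w ω : E n) :
    (inner ℂ e (perp w ω) : ℂ) =
      (inner ℂ e ω : ℂ) - ((inner ℂ w ω : ℂ) / ((‖w‖ ^ 2 : ℝ) : ℂ)) * (inner ℂ e w : ℂ) := by
  unfold perp
  rw [inner_sub_right, inner_smul_right]

theorem adr_norm {F : Type} [NormedAddCommGroup F] [InnerProductSpace ℂ F] (a b : F) (t : ℝ) :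
    ‖a + (t : ℂ) • b‖ ^ 2 =
      ‖a‖ ^ 2 + 2 * t * (inner ℂ a b : ℂ).re + t ^ 2 * ‖b‖ ^ 2 := by
  rw [norm_add_sq (𝕜 := ℂ), inner_smul_right, norm_smul, mul_pow]
  have h1 : RCLike.re ((t : ℂ) * (inner ℂ a b : ℂ)) = t * (inner ℂ a b : ℂ).re := by
    show ((t : ℂ) * (inner ℂ a b : ℂ)).re = _
    rw [Complex.re_ofReal_mul]
  rw [h1, Complex.norm_real, Real.norm_eq_abs, sq_abs]
  ring

theorem ADR_thm : ADRStmt := by
  intro n e w he hw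
  have hw0 : 0 < ‖w‖ := norm_pos_iff.2 hw
  have hw2 : (0 : ℝ) < ‖w‖ ^ 2 := by positivity
  have hd : DifferentiableAt ℝ (fun y : E n => ‖(inner ℂ e y : ℂ)‖ ^ 2 / ‖y‖ ^ 2) w := by
    have h1 : DifferentiableAt ℝ (fun y : E n => (inner ℂ e y : ℂ)) w :=
      (differentiableAt_const e).inner ℂ differentiableAt_id
    have h2 : DifferentiableAt ℝ (fun y : E n => ‖(inner ℂ e y : ℂ)‖ ^ 2) w := h1.norm_sq ℂ
    have h3 : DifferentiableAt ℝ (fun y : E n => ‖y‖ ^ 2) w := differentiableAt_id.norm_sq ℂ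
    have hne : (fun y : E n => ‖y‖ ^ 2) w ≠ 0 := hw2.ne'
    have h4 := h2.mul (h3.inv hne)
    simp only [div_eq_mul_inv]
    exact h4
  refine ⟨hd, fun ω => ?_⟩
  set a : ℂ := inner ℂ e w with ha
  set b : ℂ := inner ℂ e ω with hb
  set s : ℝ := (inner ℂ w ω : ℂ).re with hs
  set p : ℝ := (inner ℂ a b : ℂ).re with hp
  have hline : HasDerivAt (fun t : ℝ => w + t • ω) ω 0 := by
    have h := ((hasDerivAt_id (0 : ℝ)).smul_const ω).const_add w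
    simpa using h
  have hcomp : HasDerivAt (fun t : ℝ => ‖(inner ℂ e (w + t • ω) : ℂ)‖ ^ 2 / ‖w + t • ω‖ ^ 2)
      (fderiv ℝ (fun y : E n => ‖(inner ℂ e y : ℂ)‖ ^ 2 / ‖y‖ ^ 2) w ω) 0 := by
    have hw' : w + (0 : ℝ) • ω = w := by rw [zero_smul, add_zero]
    have h2 : HasFDerivAt (fun y : E n => ‖(inner ℂ e y : ℂ)‖ ^ 2 / ‖y‖ ^ 2)
        (fderiv ℝ (fun y : E n => ‖(inner ℂ e y : ℂ)‖ ^ 2 / ‖y‖ ^ 2) w) (w + (0 : ℝ) • ω) := by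
      rw [hw']
      exact hd.hasFDerivAt
    exact h2.comp_hasDerivAt (0 : ℝ) hline
  have hfun : (fun t : ℝ => ‖(inner ℂ e (w + t • ω) : ℂ)‖ ^ 2 / ‖w + t • ω‖ ^ 2) =
      fun t : ℝ => (‖a‖ ^ 2 + 2 * t * p + t ^ 2 * ‖b‖ ^ 2) /
        (‖w‖ ^ 2 + 2 * t * s + t ^ 2 * ‖ω‖ ^ 2) := by
    funext t
    have e1 : t • ω = (t : ℂ) • ω := by
      rw [Complex.coe_smul]
    rw [e1, adr_norm w ω t, inner_add_right, inner_smul_right]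
    have e2 : (inner ℂ e w : ℂ) + (t : ℂ) * (inner ℂ e ω : ℂ) = a + (t : ℂ) • b := rfl
    rw [e2, adr_norm a b t]
  have hder : HasDerivAt (fun t : ℝ => (‖a‖ ^ 2 + 2 * t * p + t ^ 2 * ‖b‖ ^ 2) /
        (‖w‖ ^ 2 + 2 * t * s + t ^ 2 * ‖ω‖ ^ 2))
      ((2 * p * ‖w‖ ^ 2 - ‖a‖ ^ 2 * (2 * s)) / (‖w‖ ^ 2) ^ 2) 0 := by
    have hnum : ∀ x y z : ℝ, HasDerivAt (fun t : ℝ => x + 2 * t * y + t ^ 2 * z) (2 * y) 0 := by
      intro x y z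
      have h1 : HasDerivAt (fun t : ℝ => x + 2 * t * y + t ^ 2 * z)
          (0 + 2 * 1 * y + ((2 : ℕ) * (0 : ℝ) ^ (2 - 1) * 1) * z) 0 := by
        refine HasDerivAt.add (HasDerivAt.add (hasDerivAt_const _ _) ?_) ?_
        · exact ((hasDerivAt_id (0 : ℝ)).const_mul 2).mul_const y
        · exact ((hasDerivAt_id (0 : ℝ)).pow 2).mul_const z
      convert h1 using 1
      norm_num
    have h := (hnum (‖a‖ ^ 2) p (‖b‖ ^ 2)).div (hnum (‖w‖ ^ 2) s (‖ω‖ ^ 2)) (by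
      norm_num
      exact hw)
    refine HasDerivAt.congr_deriv h ?_
    norm_num
  rw [hfun] at hcomp
  rw [hcomp.unique hder]
  have key : 2 * p * ‖w‖ ^ 2 - ‖a‖ ^ 2 * (2 * s) =
      2 * ‖w‖ ^ 2 * (inner ℂ a (inner ℂ e (perp w ω) : ℂ) : ℂ).re := by
    rw [adr_inner, ← ha, ← hb, inner_sub_right, Complex.sub_re, ← hp]
    have e3 : ((inner ℂ w ω : ℂ) / ((‖w‖ ^ 2 : ℝ) : ℂ)) * a =
        ((inner ℂ w ω : ℂ) / ((‖w‖ ^ 2 : ℝ) : ℂ)) • a := rfl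
    rw [e3, inner_smul_right, inner_self_eq_norm_sq_to_K]
    have e4 : ((inner ℂ w ω : ℂ) / ((‖w‖ ^ 2 : ℝ) : ℂ) * ((‖a‖ : ℂ)) ^ 2).re =
        s / ‖w‖ ^ 2 * ‖a‖ ^ 2 := by
      rw [← Complex.ofReal_pow, Complex.re_mul_ofReal, Complex.div_ofReal_re]
    have e5 : ((inner ℂ w ω : ℂ) / ((‖w‖ ^ 2 : ℝ) : ℂ) * ((‖a‖ : ℂ)) ^ 2).re =
        ((inner ℂ w ω : ℂ) / ((‖w‖ ^ 2 : ℝ) : ℂ) * ((RCLike.ofReal ‖a‖ : ℂ)) ^ 2).re := rfl
    rw [← e5, e4]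
    field_simp
  rw [key]
  set β : ℂ := inner ℂ e (perp w ω) with hβ
  have hβn : ‖β‖ ≤ ‖perp w ω‖ := by
    have := norm_inner_le_norm (𝕜 := ℂ) e (perp w ω)
    rw [he, one_mul] at this
    exact this
  have han : ‖a‖ ≤ ‖w‖ := by
    have := norm_inner_le_norm (𝕜 := ℂ) e w
    rw [he, one_mul] at this
    exact this
  have hre : |(inner ℂ a β : ℂ).re| ≤ ‖w‖ * ‖perp w ω‖ := by
    calc |(inner ℂ a β : ℂ).re| ≤ ‖(inner ℂ a β : ℂ)‖ := Complex.abs_re_le_norm _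
      _ ≤ ‖a‖ * ‖β‖ := norm_inner_le_norm (𝕜 := ℂ) a β
      _ ≤ ‖w‖ * ‖perp w ω‖ := mul_le_mul han hβn (norm_nonneg _) hw0.le
  unfold q
  rw [abs_div, abs_mul, abs_of_pos (by positivity : (0 : ℝ) < 2 * ‖w‖ ^ 2),
    abs_of_pos (by positivity : (0 : ℝ) < (‖w‖ ^ 2) ^ 2), div_le_iff₀ (by positivity)]
  calc 2 * ‖w‖ ^ 2 * |(inner ℂ a β : ℂ).re| ≤ 2 * ‖w‖ ^ 2 * (‖w‖ * ‖perp w ω‖) :=
        mul_le_mul_of_nonneg_left hre (by positivity)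
    _ = 2 * (‖perp w ω‖ / ‖w‖) * (‖w‖ ^ 2) ^ 2 := by
        field_simp

end Pool.CBE
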