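import Pool.Agent.H73.CBE.Stmts
import Pool.Agent.H74.UnivM2

/-!
# Board cbe, row LLA: the local lemma
-/

set_option autoImplicit false

open Set Filter Topology

namespace Pool.CBE

theorem lla_card {α : Type} [Fintype α] (p : α → Prop) [DecidablePred p] :
    (Finset.univ.filter p).card = Nat.card {a // p a} := by
  rw [Nat.card_eq_fintype_card, Fintype.card_subtype]

theorem lla_sub {n : ℕ} (T : Finset (E n)) (p : E n → Prop) [DecidablePred p]
    [DecidablePred fun ζ : {x // x ∈ T} => p ζ.1] :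
    (Finset.univ.filter fun ζ : {x // x ∈ T} => p ζ.1).card = (T.filter p).card := by
  classical
  have h : (Finset.univ.filter fun ζ : {x // x ∈ T} => p ζ.1).image Subtype.val = T.filter p := by
    ext x
    simp only [Finset.mem_image, Finset.mem_filter, Finset.mem_univ, true_and, Subtype.exists,
      exists_and_left, exists_prop, exists_eq_right_right]
    tauto
  rw [← h, Finset.card_image_of_injective _ Subtype.val_injective]

theorem LLA_thm (h1 : DLBStmt) (h2 : PCKStmt) (h3 : COFStmt) (h4 : GRDStmt) (h5 : PRXStmt) :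
    LLAStmt := by
  classical
  intro n K d η T X hn hK hd hη hcond hT hX
  obtain ⟨r, hr, g, hg, hgc⟩ := h4 n (6 * η) (by positivity)
  have hd0 : (0 : ℝ) < √(d : ℝ) := by
    apply Real.sqrt_pos.2
    have : (2 : ℝ) ≤ d := by exact_mod_cast hd
    linarith
  have hK1 : (1 : ℝ) ≤ K := by exact_mod_cast hK
  have hTu : ∀ ζ ∈ T, ‖ζ‖ = 1 := hT.1.1
  have hXu : ∀ x ∈ X, ‖x‖ = 1 := hX.1
  set A : ℕ := 5 ^ (2 * n) * (1 + 4 * K) ^ (2 * n - 2) with hA
  set B : ℕ := 5 ^ (2 * n) * (1 + 8 * K ^ (4 * n + 1)) ^ (2 * n - 2) with hB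
  have hA2 : 2 ≤ A := by
    have e1 : 5 ^ 1 ≤ 5 ^ (2 * n) := Nat.pow_le_pow_right (by norm_num) (by omega)
    have e2 : 1 ≤ (1 + 4 * K) ^ (2 * n - 2) := Nat.one_le_pow _ _ (by omega)
    calc 2 ≤ 5 ^ (2 * n) * 1 := by omega
      _ ≤ A := Nat.mul_le_mul_left _ e2
  have hB1 : 0 < B := by
    rw [hB]
    positivity
  set c : {x // x ∈ X} → {ζ // ζ ∈ T} → ℂ := fun x ζ =>
    if dl x.1 ζ.1 ≤ K / √(d : ℝ) then (inner ℂ ζ.1 x.1 : ℂ) ^ d else 0 with hc
  have hvc : ∀ x : {x // x ∈ X}, (Finset.univ.filter fun ζ : {ζ // ζ ∈ T} =>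
      dl x.1 ζ.1 ≤ K / √(d : ℝ)).card ≤ (A - 1) + 1 := by
    intro x
    rw [lla_sub T (fun ζ => dl x.1 ζ ≤ K / √(d : ℝ))]
    have h := h2 n (1 / √(d : ℝ)) (K / √(d : ℝ)) T x.1 hn (by positivity) (by positivity) hT.1
      (hXu _ x.2)
    have e1 : 4 * ((K : ℝ) / √(d : ℝ)) / (1 / √(d : ℝ)) = 4 * K := by field_simp
    rw [e1] at h
    have e2 : ((near T x.1 (K / √(d : ℝ))).card : ℝ) ≤ (A : ℝ) := by
      rw [hA]
      push_cast
      exact h
    have e3 : (near T x.1 (K / √(d : ℝ))).card ≤ A := by exact_mod_cast e2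
    have e4 : (A - 1) + 1 = A := by omega
    rw [e4]
    refine le_trans (le_of_eq ?_) e3
    unfold near
    congr!
  have hdg : ∀ ζ : {ζ // ζ ∈ T}, (Finset.univ.filter fun x : {x // x ∈ X} =>
      dl x.1 ζ.1 ≤ K / √(d : ℝ)).card ≤ B := by
    intro ζ
    rw [lla_sub X (fun x => dl x ζ.1 ≤ K / √(d : ℝ))]
    have h := h2 n (1 / (2 * (K : ℝ) ^ (4 * n) * √(d : ℝ))) (K / √(d : ℝ)) X ζ.1 hn
      (by positivity) (by positivity) hX (hTu _ ζ.2)
    have e1 : 4 * ((K : ℝ) / √(d : ℝ)) / (1 / (2 * (K : ℝ) ^ (4 * n) * √(d : ℝ))) =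
        8 * (K : ℝ) ^ (4 * n + 1) := by
      rw [pow_succ]
      field_simp
      ring
    rw [e1] at h
    have e2 : ((near X ζ.1 (K / √(d : ℝ))).card : ℝ) ≤ (B : ℝ) := by
      rw [hB]
      push_cast
      exact h
    have e3 : (near X ζ.1 (K / √(d : ℝ))).card ≤ B := by exact_mod_cast e2
    refine le_trans (Finset.card_le_card ?_) e3
    intro x hx
    rw [Finset.mem_filter] at hx
    unfold near
    rw [Finset.mem_filter]
    refine ⟨hx.1, ?_⟩
    rw [(h1 n ζ.1 x (hTu _ ζ.2) (hXu _ hx.1)).2.1]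
    exact hx.2
  have hbad : ∀ x : {x // x ∈ X}, 3 * ((A - 1) + 1) * B * (Finset.univ.filter
      fun f : {ζ // ζ ∈ T} → Fin r => ‖∑ ζ, c x ζ • g (f ζ)‖ < 3 * η).card ≤
      r ^ Fintype.card {ζ // ζ ∈ T} := by
    intro x
    obtain ⟨ζ₀, hζ₀, hdl⟩ := hT.2 x.1 (hXu _ x.2)
    have hdl' : dl x.1 ζ₀ < 1 / √(d : ℝ) := by
      rw [(h1 n x.1 ζ₀ (hXu _ x.2) (hTu _ hζ₀)).2.1]
      exact hdl
    have hle : (1 : ℝ) / √(d : ℝ) ≤ K / √(d : ℝ) := div_le_div_of_nonneg_right hK1 hd0.le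
    have hc0 : 1 / 2 ≤ ‖c x ⟨ζ₀, hζ₀⟩‖ := by
      simp only [hc]
      rw [if_pos (le_trans hdl'.le hle), norm_pow]
      exact (h3 n x.1 ζ₀ (hXu _ x.2) (hTu _ hζ₀)).2 d hd hdl'.le
    have h6 := h5 n r g (3 * η) ((18 * η) ^ (2 * n)) (by
      intro b
      have := hgc b
      have e1 : 2 * (3 * η) = 6 * η := by ring
      have e2 : 3 * (6 * η) = 18 * η := by ring
      rw [e2] at this
      rw [e1]
      exact this) {ζ // ζ ∈ T} (c x) ⟨ζ₀, hζ₀⟩ hc0
    rw [← lla_card] at h6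
    have e4 : (A - 1) + 1 = A := by omega
    rw [e4]
    have hAB : 3 * (A : ℝ) * B * (18 * η) ^ (2 * n) ≤ 1 := by
      rw [hA, hB]
      push_cast
      exact hcond
    have h7 : 3 * (A : ℝ) * B * ((Finset.univ.filter
        fun f : {ζ // ζ ∈ T} → Fin r => ‖∑ ζ, c x ζ • g (f ζ)‖ < 3 * η).card : ℝ) ≤
        (r : ℝ) ^ Fintype.card {ζ // ζ ∈ T} := by
      calc _ ≤ 3 * (A : ℝ) * B * ((18 * η) ^ (2 * n) * (r : ℝ) ^ Fintype.card {ζ // ζ ∈ T}) :=
            mul_le_mul_of_nonneg_left h6 (by positivity)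
        _ = (3 * (A : ℝ) * B * (18 * η) ^ (2 * n)) * (r : ℝ) ^ Fintype.card {ζ // ζ ∈ T} := by
            ring
        _ ≤ 1 * (r : ℝ) ^ Fintype.card {ζ // ζ ∈ T} :=
            mul_le_mul_of_nonneg_right hAB (by positivity)
        _ = _ := one_mul _
    exact_mod_cast h7
  obtain ⟨f, hf⟩ := Pool.H15.Univ.local_lemma (ι := {ζ // ζ ∈ T}) (E := {x // x ∈ X})
    (r := r) (R := A - 1) (m := B) hr (by omega) hB1
    (fun x => Finset.univ.filter fun ζ : {ζ // ζ ∈ T} => dl x.1 ζ.1 ≤ K / √(d : ℝ))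
    (fun x f => ‖∑ ζ, c x ζ • g (f ζ)‖ < 3 * η)
    (by
      intro x f f' hff hb
      have : ∑ ζ, c x ζ • g (f' ζ) = ∑ ζ, c x ζ • g (f ζ) := by
        refine Finset.sum_congr rfl fun ζ _ => ?_
        by_cases hz : dl x.1 ζ.1 ≤ K / √(d : ℝ)
        · rw [hff ζ (by
            rw [Finset.mem_filter]
            exact ⟨Finset.mem_univ _, hz⟩)]
        · simp only [hc]
          rw [if_neg hz, zero_smul, zero_smul]
      show ‖∑ ζ, c x ζ • g (f' ζ)‖ < 3 * η
      rw [this]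
      exact hb)
    (fun x => hvc x)
    (by
      intro ζ
      refine le_trans (le_of_eq ?_) (hdg ζ)
      congr 1
      ext x
      simp only [Finset.mem_filter, Finset.mem_univ, true_and])
    (by
      intro x
      refine le_trans (le_of_eq ?_) (hbad x)
      congr!)
  refine ⟨fun ζ => if h : ζ ∈ T then g (f ⟨ζ, h⟩) else 0, ?_, ?_⟩
  · intro ζ
    by_cases h : ζ ∈ T
    · simp only [dif_pos h]
      exact hg _
    · simp only [dif_neg h]
      rw [norm_zero]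
      positivity
  · intro x hx
    have h8 := hf ⟨x, hx⟩
    rw [not_lt] at h8
    refine le_trans h8 (le_of_eq ?_)
    congr 1
    unfold fm near
    rw [Finset.sum_filter]
    rw [← Finset.sum_coe_sort T]
    refine Finset.sum_congr rfl fun ζ _ => ?_
    simp only [hc, dif_pos ζ.2]
    by_cases hz : dl x ζ.1 ≤ K / √(d : ℝ)
    · rw [if_pos hz, if_pos hz]
    · rw [if_neg hz, if_neg hz, zero_smul]

end Pool.CBE
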